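import Mathlib

set_option autoImplicit false

open Set Filter Topology TopologicalSpace

namespace Pool.Agent.H.MP_ffad8e

/-- `D k S`: the small inductive dimension of the subspace `S` is less than `k`. -/
def D {Y : Type} [TopologicalSpace Y] : ℕ → Set Y → Prop
  | 0, S => S = ∅
  | k + 1, S => ∀ x ∈ S, ∀ U ∈ 𝓝 x, ∃ V, IsOpen V ∧ x ∈ V ∧ V ⊆ U ∧
      D k (S ∩ (closure (V ∩ S) \ V))

variable {Y : Type} [TopologicalSpace Y]

lemma D.mono : ∀ {k : ℕ} {S T : Set Y}, D k S → T ⊆ S → D k T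
  | 0, _, _, h, e => subset_eq_empty e h
  | _ + 1, _, _, h, e => fun x hx U hU => by
    obtain ⟨V, v1, v2, v3, v4⟩ := h x (e hx) U hU
    exact ⟨V, v1, v2, v3, v4.mono (inter_subset_inter e
      (diff_subset_diff_left (closure_mono (inter_subset_inter_right _ e))))⟩

lemma D_empty : ∀ k : ℕ, D k (∅ : Set Y)
  | 0 => rfl
  | _ + 1 => fun _ h => h.elim

lemma D_image {α : Type} [TopologicalSpace α] {f : α → Y} (hf : IsInducing f) :
    ∀ {k : ℕ} {S : Set α}, D k (f '' S) ↔ D k S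
  | 0, _ => image_eq_empty
  | k + 1, S => by
    constructor
    · intro h x hx U hU
      rw [hf.nhds_eq_comap, mem_comap] at hU
      obtain ⟨U', u1, u2⟩ := hU
      obtain ⟨V, v1, v2, v3, v4⟩ := h _ (mem_image_of_mem f hx) U' u1
      refine ⟨f ⁻¹' V, v1.preimage hf.continuous, v2, (preimage_mono v3).trans u2,
        (D_image hf).1 (v4.mono ?_)⟩
      rintro _ ⟨z, ⟨z1, z2, z3⟩, rfl⟩
      refine ⟨mem_image_of_mem f z1, ?_, z3⟩
      refine closure_mono ?_ (image_closure_subset_closure_image hf.continuous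
        (mem_image_of_mem f z2))
      rintro _ ⟨w, ⟨w1, w2⟩, rfl⟩
      exact ⟨w1, mem_image_of_mem f w2⟩
    · rintro h _ ⟨x, hx, rfl⟩ U hU
      obtain ⟨V, v1, v2, v3, v4⟩ := h x hx (f ⁻¹' interior U)
        (hf.continuous.continuousAt.preimage_mem_nhds (interior_mem_nhds.2 hU))
      obtain ⟨W, w1, rfl⟩ := hf.isOpen_iff.1 v1
      refine ⟨W ∩ interior U, w1.inter isOpen_interior, ⟨v2, v3 v2⟩,
        inter_subset_right.trans interior_subset, ((D_image hf).2 v4).mono ?_⟩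
      rintro _ ⟨⟨z, z1, rfl⟩, z2, z3⟩
      refine ⟨z, ⟨z1, ?_, fun h => z3 ⟨h, v3 h⟩⟩, rfl⟩
      rw [hf.closure_eq_preimage_closure_image]
      refine closure_mono ?_ z2
      rintro _ ⟨⟨w2, -⟩, w, w3, rfl⟩
      exact ⟨w, ⟨w2, w3⟩, rfl⟩

lemma ind_iff (ind : ℕ → (α : Type) → [TopologicalSpace α] → Prop)
    (h : ∀ (α : Type) [TopologicalSpace α], (ind 0 α ↔ IsEmpty α) ∧
      ∀ k : ℕ, (ind (k + 1) α ↔ ∀ x : α, ∀ U ∈ nhds x, ∃ V : Set α,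
        IsOpen V ∧ x ∈ V ∧ V ⊆ U ∧ ind k ↥(frontier V))) :
    ∀ (k : ℕ) (α : Type) [TopologicalSpace α], ind k α ↔ D k (univ : Set α)
  | 0, α, _ => (h α).1.trans univ_eq_empty_iff.symm
  | k + 1, α, _ => by
    have e : ∀ V : Set α, IsOpen V →
        (ind k ↥(frontier V) ↔ D k (univ ∩ (closure (V ∩ univ) \ V))) := fun V hV => by
      rw [ind_iff ind h k, ← D_image IsInducing.subtypeVal, inter_univ, univ_inter,
        ← hV.frontier_eq, image_univ, Subtype.range_coe]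
    rw [(h α).2]
    constructor
    · intro H x _ U hU
      obtain ⟨V, v1, v2, v3, v4⟩ := H x U hU
      exact ⟨V, v1, v2, v3, (e V v1).1 v4⟩
    · intro H x U hU
      obtain ⟨V, v1, v2, v3, v4⟩ := H x trivial U hU
      exact ⟨V, v1, v2, v3, (e V v1).2 v4⟩

lemma D_sub {k : ℕ} {S : Set Y} : D k (univ : Set S) ↔ D k S := by
  rw [← D_image IsInducing.subtypeVal, image_univ, Subtype.range_coe]

/-- a countable subfamily of a base at the points of `S` is still such a base -/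
lemma cb [SecondCountableTopology Y] {S : Set Y} (P : Set Y → Prop) (h0 : P ∅)
    (h : ∀ x ∈ S, ∀ U ∈ 𝓝 x, ∃ V, IsOpen V ∧ x ∈ V ∧ V ⊆ U ∧ P V) :
    ∃ V : ℕ → Set Y, (∀ j, IsOpen (V j) ∧ P (V j)) ∧
      ∀ x ∈ S, ∀ U ∈ 𝓝 x, ∃ j, x ∈ V j ∧ V j ⊆ U := by
  obtain ⟨b, b1, -, b2⟩ := exists_countable_basis Y
  have := b1.to_subtype
  have k : ∀ p : b × b, ∃ V, (IsOpen V ∧ P V) ∧
      ((∃ V, IsOpen V ∧ P V ∧ p.1.1 ⊆ V ∧ V ⊆ p.2.1) → p.1.1 ⊆ V ∧ V ⊆ p.2.1) := fun p => by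
    by_cases e : ∃ V, IsOpen V ∧ P V ∧ p.1.1 ⊆ V ∧ V ⊆ p.2.1
    · obtain ⟨V, v1, v2, v3⟩ := e
      exact ⟨V, ⟨v1, v2⟩, fun _ => v3⟩
    · exact ⟨∅, ⟨isOpen_empty, h0⟩, fun h => (e h).elim⟩
  choose W w1 w2 using k
  obtain ⟨g, hg⟩ := exists_surjective_nat (Option (b × b))
  refine ⟨fun j => (g j).elim ∅ W, fun j => ?_, fun x hx U hU => ?_⟩
  · beta_reduce
    cases g j
    exacts [⟨isOpen_empty, h0⟩, w1 _]
  · obtain ⟨O, o1, o2, o3⟩ := b2.mem_nhds_iff.1 hU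
    obtain ⟨V, v1, v2, v3, v4⟩ := h x hx O (b2.mem_nhds o1 o2)
    obtain ⟨O', p1, p2, p3⟩ := b2.mem_nhds_iff.1 (v1.mem_nhds v2)
    obtain ⟨j, hj⟩ := hg (some (⟨O', p1⟩, ⟨O, o1⟩))
    obtain ⟨q1, q2⟩ := w2 (⟨O', p1⟩, ⟨O, o1⟩) ⟨V, v1, v4, p3, v3⟩
    exact ⟨j, by beta_reduce; rw [hj]; exact q1 p2, by beta_reduce; rw [hj]; exact q2.trans o3⟩

end Pool.Agent.H.MP_ffad8e
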