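import Pool.Agent.H.MP_ffad8e.A

set_option autoImplicit false

open Set Filter Topology TopologicalSpace

namespace Pool.Agent.H.MP_ffad8e

variable {Y : Type} [TopologicalSpace Y] [MetrizableSpace Y] [SecondCountableTopology Y]

omit [SecondCountableTopology Y] in
lemma nrm {A B : Set Y} (hA : IsClosed A) (hB : IsClosed B) (h : Disjoint A B) :
    ∃ U, IsOpen U ∧ A ⊆ U ∧ Disjoint (closure U) B := by
  obtain ⟨U, u1, u2, u3⟩ := normal_exists_closure_subset hA hB.isOpen_compl h.subset_compl_right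
  exact ⟨U, u1, u2, subset_compl_iff_disjoint_right.1 u3⟩

/-- separation theorem for zero-dimensional subsets -/
lemma sep0 {S A B : Set Y} (hS : D 1 S) (hA : IsClosed A) (hB : IsClosed B) (h : Disjoint A B) :
    ∃ V, IsOpen V ∧ A ⊆ V ∧ Disjoint (closure V) B ∧ Disjoint (frontier V) S := by
  classical
  obtain ⟨P, p1, p2, p3⟩ := nrm hA hB h
  obtain ⟨Q, q1, q2, q3⟩ := nrm hB isClosed_closure p3.symm
  obtain ⟨V, v1, v2⟩ := cb (S := S) (fun V => S ∩ (closure (V ∩ S) \ V) = ∅ ∧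
      (Disjoint V (closure P) ∨ Disjoint V (closure Q))) (by simp) fun x hx U hU => by
    by_cases e : x ∈ closure P
    · obtain ⟨V, a1, a2, a3, a4⟩ := hS x hx (U ∩ (closure Q)ᶜ) (inter_mem hU
        (isClosed_closure.isOpen_compl.mem_nhds fun k => disjoint_left.1 q3 k e))
      exact ⟨V, a1, a2, fun z hz => (a3 hz).1, a4, .inr (disjoint_left.2 fun z hz => (a3 hz).2)⟩
    · obtain ⟨V, a1, a2, a3, a4⟩ := hS x hx (U ∩ (closure P)ᶜ) (inter_mem hU
        (isClosed_closure.isOpen_compl.mem_nhds e))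
      exact ⟨V, a1, a2, fun z hz => (a3 hz).1, a4, .inl (disjoint_left.2 fun z hz => (a3 hz).2)⟩
  have ex : ∀ x ∈ S, ∃ j, x ∈ V j := fun x hx => (v2 x hx univ univ_mem).imp fun _ h => h.1
  let N : Y → ℕ := fun x => if h : x ∈ S then Nat.find (ex x h) else 0
  have n1 : ∀ x ∈ S, x ∈ V (N x) := fun x hx => by
    simp only [N, dif_pos hx]; exact Nat.find_spec (ex x hx)
  have n2 : ∀ x ∈ S, ∀ k < N x, x ∉ V k := fun x hx k hk => by
    simp only [N, dif_pos hx] at hk; exact Nat.find_min (ex x hx) hk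
  have lc : ∀ x ∈ S, ∀ᶠ z in 𝓝 x, z ∈ S → N z = N x := fun x hx => by
    have a : ∀ᶠ z in 𝓝 x, ∀ k ∈ Finset.range (N x), z ∉ closure (V k ∩ S) :=
      (eventually_all_finset _).2 fun k hk => isClosed_closure.isOpen_compl.mem_nhds fun h =>
        (eq_empty_iff_forall_notMem.1 (v1 k).2.1) x ⟨hx, h, n2 x hx k (Finset.mem_range.1 hk)⟩
    filter_upwards [a, (v1 (N x)).1.mem_nhds (n1 x hx)] with z z1 z2 z3
    rcases lt_trichotomy (N z) (N x) with l | l | l
    · exact (z1 _ (Finset.mem_range.2 l) (subset_closure ⟨n1 z z3, z3⟩)).elim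
    · exact l
    · exact (n2 z z3 _ l z2).elim
  let C : Set Y := {x | x ∈ S ∧ Disjoint (V (N x)) (closure Q)}
  let C' : Set Y := {x | x ∈ S ∧ ¬Disjoint (V (N x)) (closure Q)}
  have c1 : ∀ x ∈ C', x ∉ closure C := fun x hx k => by
    obtain ⟨z, z1, z2⟩ := mem_closure_iff_nhds.1 k _ (lc x hx.1)
    exact hx.2 (z1 z2.1 ▸ z2.2)
  have c2 : ∀ x ∈ C, x ∉ closure C' := fun x hx k => by
    obtain ⟨z, z1, z2⟩ := mem_closure_iff_nhds.1 k _ (lc x hx.1)
    exact z2.2 (z1 z2.1 ▸ hx.2)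
  have c3 : Disjoint Q (closure C) := (disjoint_left.2 fun z z1 z2 =>
    disjoint_left.1 z2.2 (n1 z z2.1) (subset_closure z1) : Disjoint Q C).closure_right q1
  have c4 : Disjoint P (closure C') := (disjoint_left.2 fun z z1 z2 =>
    disjoint_left.1 ((v1 _).2.2.resolve_right z2.2) (n1 z z2.1) (subset_closure z1) :
      Disjoint P C').closure_right p1
  have d : Disjoint (𝓝ˢ (A ∪ C)) (𝓝ˢ (B ∪ C')) := by
    refine completely_normal ?_ ?_
    · rw [closure_union, hA.closure_eq]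
      refine disjoint_left.2 ?_
      rintro z (z1 | z1) (z2 | z2)
      exacts [disjoint_left.1 h z1 z2, disjoint_left.1 c4 (p2 z1) (subset_closure z2),
        disjoint_left.1 c3 (q2 z2) z1, c1 z z2 z1]
    · rw [closure_union, hB.closure_eq]
      refine disjoint_left.2 ?_
      rintro z (z1 | z1) (z2 | z2)
      exacts [disjoint_left.1 h z1 z2, disjoint_left.1 c4 (p2 z1) z2,
        disjoint_left.1 c3 (q2 z2) (subset_closure z1), c2 z z1 z2]
  obtain ⟨U, W, u1, w1, u2, w2, d'⟩ := separatedNhds_iff_disjoint.2 d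
  have d2 : Disjoint (closure U) W := d'.closure_left w1
  refine ⟨U, u1, subset_union_left.trans u2, d2.mono_right (subset_union_left.trans w2),
    disjoint_left.2 fun z z1 z2 => ?_⟩
  rw [u1.frontier_eq] at z1
  by_cases e : Disjoint (V (N z)) (closure Q)
  · exact z1.2 (u2 (.inr ⟨z2, e⟩))
  · exact disjoint_left.1 d2 z1.1 (w2 (.inr ⟨z2, e⟩))

lemma sep1 {S : Set Y} (hS : D 1 S) (x : Y) (U : Set Y) (hU : U ∈ 𝓝 x) :
    ∃ V, IsOpen V ∧ x ∈ V ∧ V ⊆ U ∧ Disjoint (frontier V) S := by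
  obtain ⟨V, v1, v2, v3, v4⟩ := sep0 hS (isClosed_singleton (x := x))
    isOpen_interior.isClosed_compl (disjoint_singleton_left.2 fun h =>
      h (mem_interior_iff_mem_nhds.2 hU))
  exact ⟨V, v1, v2 rfl, fun z hz => interior_subset (not_not.1 fun h =>
    disjoint_left.1 v3 (subset_closure hz) h), v4⟩

lemma sum_univ {F : ℕ → Set Y} (h1 : ∀ m, IsClosed (F m)) (h2 : ∀ m, D 1 (F m))
    (h3 : ∀ x, ∃ m, x ∈ F m) : D 1 (univ : Set Y) := by
  intro x _ U hU
  have st : ∀ (m : ℕ) (p : {p : Set Y × Set Y // IsClosed p.1 ∧ IsClosed p.2 ∧ Disjoint p.1 p.2}),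
      ∃ q : {p : Set Y × Set Y // IsClosed p.1 ∧ IsClosed p.2 ∧ Disjoint p.1 p.2},
        p.1.1 ⊆ interior q.1.1 ∧ p.1.2 ⊆ interior q.1.2 ∧ F m ⊆ q.1.1 ∪ q.1.2 := by
    rintro m ⟨⟨P, Q⟩, a1, a2, a3⟩
    obtain ⟨V, v1, v2, v3, v4⟩ := sep0 (h2 m) a1 a2 a3
    obtain ⟨W, w1, w2, w3⟩ := nrm (a2.union ((h1 m).sdiff v1)) isClosed_closure
      (disjoint_union_left.2 ⟨v3.symm, disjoint_left.2 fun z z1 z2 =>
        disjoint_left.1 v4 (v1.frontier_eq ▸ ⟨z2, z1.2⟩) z1.1⟩ : Disjoint _ (closure V))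
    refine ⟨⟨(closure V, closure W), isClosed_closure, isClosed_closure, w3.symm⟩,
      v2.trans v1.subset_interior_closure,
      (subset_union_left.trans w2).trans w1.subset_interior_closure, fun z hz => ?_⟩
    by_cases e : z ∈ V
    exacts [.inl (subset_closure e), .inr (subset_closure (w2 (.inr ⟨hz, e⟩)))]
  choose g g1 g2 g3 using st
  let s : ℕ → {p : Set Y × Set Y // IsClosed p.1 ∧ IsClosed p.2 ∧ Disjoint p.1 p.2} :=
    fun n => Nat.rec ⟨({x}, (interior U)ᶜ), isClosed_singleton, isOpen_interior.isClosed_compl,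
      disjoint_singleton_left.2 fun h => h (mem_interior_iff_mem_nhds.2 hU)⟩ g n
  have m1 : Monotone fun n => (s n).1.1 :=
    monotone_nat_of_le_succ fun n => (g1 n (s n)).trans interior_subset
  have m2 : Monotone fun n => (s n).1.2 :=
    monotone_nat_of_le_succ fun n => (g2 n (s n)).trans interior_subset
  have o : ∀ f : ℕ → Set Y, (∀ n, f n ⊆ interior (f (n + 1))) → IsOpen (⋃ n, f n) := fun f hf =>
    isOpen_iff_mem_nhds.2 fun z hz => by
      obtain ⟨n, hn⟩ := mem_iUnion.1 hz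
      exact mem_of_superset (mem_interior_iff_mem_nhds.1 (hf n hn)) (subset_iUnion f _)
  have d : Disjoint (⋃ n, (s n).1.1) (⋃ n, (s n).1.2) :=
    disjoint_iUnion_left.2 fun a => disjoint_iUnion_right.2 fun b =>
      (s (max a b)).2.2.2.mono (m1 (le_max_left a b)) (m2 (le_max_right a b))
  refine ⟨_, o _ fun n => g1 n (s n), mem_iUnion.2 ⟨0, rfl⟩, fun z hz => interior_subset
    (not_not.1 fun h => disjoint_left.1 d hz (mem_iUnion.2 ⟨0, h⟩)), ?_⟩
  refine eq_empty_of_forall_notMem fun z ⟨_, z1, z2⟩ => ?_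
  obtain ⟨m, hm⟩ := h3 z
  rcases g3 m (s m) hm with e | e
  · exact z2 (mem_iUnion.2 ⟨m + 1, e⟩)
  · rw [inter_univ] at z1
    exact disjoint_left.1 (d.closure_left (o _ fun n => g2 n (s n))) z1 (mem_iUnion.2 ⟨m + 1, e⟩)

/-- sum theorem in dimension zero -/
lemma sum0 {Z : Set Y} {K : ℕ → Set Y} (h1 : ∀ m, IsGδ (K m)ᶜ) (h2 : ∀ m, D 1 (Z ∩ K m))
    (h3 : Z ⊆ ⋃ m, K m) : D 1 Z := by
  choose U u1 u2 using fun m => isGδ_iff_eq_iInter_nat.1 (h1 m)
  refine D_sub.1 (sum_univ (F := fun m => Subtype.val ⁻¹' (U m.unpair.1 m.unpair.2)ᶜ)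
    (fun m => (u1 _ _).isClosed_compl.preimage continuous_subtype_val) (fun m => ?_) fun x => ?_)
  · refine (D_image IsInducing.subtypeVal).1 ((h2 m.unpair.1).mono ?_)
    rintro _ ⟨z, z1, rfl⟩
    exact ⟨z.2, not_not.1 fun h => z1 (mem_iInter.1 ((u2 _).le h) _)⟩
  · obtain ⟨m, hm⟩ := mem_iUnion.1 (h3 x.2)
    have : x.1 ∉ ⋂ n, U m n := fun h => (u2 m).ge h hm
    obtain ⟨n, hn⟩ := not_forall.1 (mt mem_iInter.2 this)
    exact ⟨m.pair n, by simpa using hn⟩

end Pool.Agent.H.MP_ffad8e
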