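import Pool.Agent.H.MP_ffad8e.B

set_option autoImplicit false

open Set Filter Topology TopologicalSpace

namespace Pool.Agent.H.MP_ffad8e

section
variable {Y : Type} [TopologicalSpace Y] [MetrizableSpace Y] [SecondCountableTopology Y]

/-- decomposition theorem -/
lemma decomp : ∀ {n : ℕ} {S : Set Y}, D n S →
    ∃ Z : Fin n → Set Y, (∀ i, D 1 (Z i)) ∧ S ⊆ ⋃ i, Z i
  | 0, _, h => ⟨fun i => i.elim0, fun i => i.elim0, h ▸ empty_subset _⟩
  | n + 1, S, h => by
    obtain ⟨V, v1, v2⟩ := cb (S := S) (fun V => D n (S ∩ (closure (V ∩ S) \ V)))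
      (by simpa using D_empty n) h
    choose Z z1 z2 using fun j => decomp (v1 j).2
    let T : ℕ → Set Y := fun j => closure (V j ∩ S) \ V j
    have t : ∀ j, IsClosed (T j) := fun j => isClosed_closure.sdiff (v1 j).1
    refine ⟨Fin.cons (S \ ⋃ j, T j) fun i => ⋃ j, Z j i ∩ disjointed T j, fun i => ?_,
      fun x hx => ?_⟩
    · refine Fin.cases (fun x hx U hU => ?_) (fun i => ?_) i
      · obtain ⟨j, a1, a2⟩ := v2 x hx.1 U hU
        exact ⟨V j, (v1 j).1, a1, a2, eq_empty_of_forall_notMem fun z ⟨b1, b2, b3⟩ =>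
          b1.2 (mem_iUnion.2 ⟨j, closure_mono (inter_subset_inter_right _ sdiff_subset) b2, b3⟩)⟩
      · refine sum0 (K := disjointed T) (fun m => ?_) (fun m => (z1 m i).mono ?_)
          (iUnion_mono fun j => inter_subset_right)
        · rw [disjointed_eq_inter_compl, compl_inter]
          refine (t m).isOpen_compl.isGδ.union (IsClosed.isGδ (IsOpen.isClosed_compl ?_))
          exact (finite_lt_nat m).isOpen_biInter fun j _ => (t j).isOpen_compl
        · rintro z ⟨b1, b2⟩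
          obtain ⟨j, b3, b4⟩ := mem_iUnion.1 b1
          by_cases e : j = m
          · exact e ▸ b3
          · exact (disjoint_left.1 (disjoint_disjointed T e) b4 b2).elim
    · by_cases e : x ∈ ⋃ j, T j
      · rw [← iUnion_disjointed] at e
        obtain ⟨j, hj⟩ := mem_iUnion.1 e
        obtain ⟨i, hi⟩ := mem_iUnion.1 (z2 j ⟨hx, disjointed_subset T j hj⟩)
        exact mem_iUnion.2 ⟨i.succ, mem_iUnion.2 ⟨j, hi, hj⟩⟩
      · exact mem_iUnion.2 ⟨0, hx, e⟩

/-- addition theorem -/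
lemma addn : ∀ {n : ℕ} {S : Set Y} (Z : Fin n → Set Y), (∀ i, D 1 (Z i)) → S ⊆ ⋃ i, Z i → D n S
  | 0, _, _, _, h => by simpa [D] using h
  | n + 1, S, Z, h1, h2 => fun x _ U hU => by
    obtain ⟨V, v1, v2, v3, v4⟩ := sep1 (h1 0) x U hU
    refine ⟨V, v1, v2, v3, addn (fun i => Z i.succ) (fun i => h1 _) fun z ⟨z1, z2, z3⟩ => ?_⟩
    obtain ⟨i, hi⟩ := mem_iUnion.1 (h2 z1)
    revert hi
    refine Fin.cases (fun hi => ?_) (fun i hi => mem_iUnion.2 ⟨i, hi⟩) i
    exact (disjoint_left.1 v4 (v1.frontier_eq ▸ ⟨closure_mono inter_subset_left z2, z3⟩) hi).elim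

/-- the space is covered by `n + 1` sets of type `Gδ` meeting `S` in zero-dimensional sets -/
lemma cover {n : ℕ} {S : Set Y} (h : D (n + 1) S) :
    ∃ G : Fin (n + 1) → Set Y, (∀ i, IsGδ (G i) ∧ D 1 (S ∩ G i)) ∧ ∀ y, ∃ i, y ∈ G i := by
  obtain ⟨Z, z1, z2⟩ := decomp h
  choose V v1 v2 using fun i => cb (S := univ) (fun V => Disjoint (frontier V) (Z i)) (by simp)
    fun x _ U hU => sep1 (z1 i) x U hU
  let K : Fin (n + 1) → ℕ → Set Y := fun i m => ⋂ j, ⋂ _ : j ≠ i, ⋃ k ≤ m, frontier (V j k)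
  have k : ∀ i m, IsClosed (K i m) := fun i m => isClosed_iInter fun j => isClosed_iInter fun _ =>
    (finite_le_nat m).isClosed_biUnion fun _ _ => isClosed_frontier
  refine ⟨fun i => ⋂ m, (frontier (V i m))ᶜ ∪ K i m, fun i => ⟨IsGδ.iInter fun m =>
    isClosed_frontier.isOpen_compl.isGδ.union (k i m).isGδ, fun x _ U hU => ?_⟩, fun y => ?_⟩
  · obtain ⟨m, a1, a2⟩ := v2 i x trivial U hU
    refine ⟨V i m, (v1 i m).1, a1, a2, eq_empty_of_forall_notMem fun z ⟨⟨b1, b2⟩, b3, b4⟩ => ?_⟩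
    have b5 : z ∈ frontier (V i m) :=
      (v1 i m).1.frontier_eq ▸ ⟨closure_mono inter_subset_left b3, b4⟩
    obtain ⟨j, hj⟩ := mem_iUnion.1 (z2 b1)
    by_cases e : j = i
    · exact disjoint_left.1 (v1 i m).2 b5 (e ▸ hj)
    · obtain ⟨k, -, c⟩ := mem_iUnion₂.1
        (mem_iInter₂.1 ((mem_iInter.1 b2 m).resolve_left (not_not.2 b5)) j e)
      exact disjoint_left.1 (v1 j k).2 c hj
  · by_contra! hc
    simp only [mem_iInter, not_forall, mem_union, not_or, mem_compl_iff, not_not] at hc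
    choose m m1 m2 using hc
    obtain ⟨i, hi⟩ := Finite.exists_max m
    exact m2 i (mem_iInter₂.2 fun j _ => mem_iUnion₂.2 ⟨m j, hi j, m1 j⟩)

end

theorem gdelta {X : Type} [TopologicalSpace X] [PolishSpace X] {s : Set X} (hs : IsGδ s) :
    PolishSpace s := by
  obtain ⟨U, hU, rfl⟩ := isGδ_iff_eq_iInter_nat.mp hs
  have := fun n => (hU n).polishSpace
  let f : (⋂ n, U n : Set X) → ∀ n, U n := fun x n => ⟨x.1, Set.mem_iInter.mp x.2 n⟩
  have hc : Continuous f := continuous_pi fun n => continuous_subtype_val.subtype_mk _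
  have cv : ∀ n, Continuous fun y : ∀ n, U n => (y n).1 := fun n =>
    continuous_subtype_val.comp (continuous_apply n)
  have he : IsEmbedding f := IsEmbedding.of_comp hc (cv 0) IsEmbedding.subtypeVal
  have hr : Set.range f = ⋂ n, {y | (y n).1 = (y 0).1} := by
    ext y
    simp only [Set.mem_range, Set.mem_iInter, Set.mem_ofPred_eq]
    constructor
    · rintro ⟨x, rfl⟩ n; rfl
    · intro h
      exact ⟨⟨(y 0).1, Set.mem_iInter.mpr fun n => h n ▸ (y n).2⟩,
        funext fun n => Subtype.ext (h n).symm⟩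
  exact IsClosedEmbedding.polishSpace ⟨he, hr ▸ isClosed_iInter fun n => isClosed_eq (cv n) (cv 0)⟩

end Pool.Agent.H.MP_ffad8e
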