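import Pool.Agent.H.MP_ffad8e.C

set_option autoImplicit false

open Set Filter Topology TopologicalSpace Metric

namespace Pool.Agent.H.MP_ffad8e

lemma half {Y : Type} [MetricSpace Y] {a p q : Y} {r : ℝ} (h1 : p ∈ ball a (r / 2))
    (h2 : q ∈ ball a (r / 2)) : dist p q < r := by
  linarith [dist_triangle_right p q a, mem_ball.1 h1, mem_ball.1 h2]

/-- Lavrentiev's extension theorem -/
lemma lavr {A Y W : Type} [TopologicalSpace A] [MetricSpace Y] [MetricSpace W] [CompleteSpace W]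
    {e : A → Y} {f : A → W} (he : IsEmbedding e) (hf : IsEmbedding f) :
    ∃ G : Set Y, IsGδ G ∧ range e ⊆ G ∧ ∃ h : G → W, IsEmbedding h ∧
      ∀ a (ha : e a ∈ G), h ⟨e a, ha⟩ = f a := by
  let O : ℝ → Set Y := fun r => {y | ∃ U V, IsOpen U ∧ IsOpen V ∧ y ∈ U ∧
    closure (f '' (e ⁻¹' U)) ⊆ V ∧
    ∀ a b, f a ∈ V → f b ∈ V → dist (f a) (f b) < r ∧ dist (e a) (e b) ≤ r}
  have o1 : ∀ r, IsOpen (O r) := fun r => isOpen_iff_mem_nhds.2 fun y ⟨U, V, a1, a2, a3, a4⟩ =>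
    mem_of_superset (a1.mem_nhds a3) fun z hz => ⟨U, V, a1, a2, hz, a4⟩
  have o2 : ∀ r > 0, ∀ a, e a ∈ O r := fun r hr a => by
    have k : e ⁻¹' ball (e a) (r / 2) ∈ 𝓝 a :=
      he.continuous.continuousAt.preimage_mem_nhds (ball_mem_nhds _ (half_pos hr))
    rw [hf.nhds_eq_comap, mem_comap] at k
    obtain ⟨T, t1, t2⟩ := k
    obtain ⟨C, c1, c2, c3⟩ := exists_mem_nhds_isClosed_subset
      (interior_mem_nhds.2 (inter_mem t1 (ball_mem_nhds _ (half_pos hr))))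
    have k : f ⁻¹' C ∈ 𝓝 a := hf.continuous.continuousAt.preimage_mem_nhds c1
    rw [he.nhds_eq_comap, mem_comap] at k
    obtain ⟨U, u1, u2⟩ := k
    refine ⟨interior U, _, isOpen_interior, isOpen_interior, mem_interior_iff_mem_nhds.2 u1,
      (closure_minimal ?_ c2).trans c3, fun p q hp hq => ⟨?_, le_of_lt ?_⟩⟩
    · rintro _ ⟨z, hz, rfl⟩
      exact u2 (interior_subset (s := U) hz)
    · exact half (interior_subset hp).2 (interior_subset hq).2
    · exact half (t2 (interior_subset hp).1) (t2 (interior_subset hq).1)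
  let G : Set Y := closure (range e) ∩ ⋂ n : ℕ, O (1 / (n + 1))
  have nb : ∀ y : G, NeBot (comap e (𝓝 y.1)) := fun y => comap_neBot fun t ht => by
    obtain ⟨_, h1, a, rfl⟩ := mem_closure_iff_nhds.1 y.2.1 t ht
    exact ⟨a, h1⟩
  have g : ∀ y : G, ∀ r > 0, ∃ U V, IsOpen U ∧ IsOpen V ∧ y.1 ∈ U ∧
      closure (f '' (e ⁻¹' U)) ⊆ V ∧
      ∀ a b, f a ∈ V → f b ∈ V → dist (f a) (f b) < r ∧ dist (e a) (e b) ≤ r := fun y r hr => by
    obtain ⟨n, hn⟩ := exists_nat_one_div_lt hr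
    obtain ⟨U, V, a1, a2, a3, a4, a5⟩ := mem_iInter.1 y.2.2 n
    exact ⟨U, V, a1, a2, a3, a4, fun a b p q => ⟨(a5 a b p q).1.trans hn, (a5 a b p q).2.trans hn.le⟩⟩
  have ex : ∀ y : G, ∃ w, Tendsto f (comap e (𝓝 y.1)) (𝓝 w) := fun y => by
    have := nb y
    refine CompleteSpace.complete (Metric.cauchy_iff.2 ⟨map_neBot, fun r hr => ?_⟩)
    obtain ⟨U, V, a1, -, a3, a4, a5⟩ := g y r hr
    refine ⟨f '' (e ⁻¹' U), image_mem_map (preimage_mem_comap (a1.mem_nhds a3)), ?_⟩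
    rintro _ ⟨p, hp, rfl⟩ _ ⟨q, hq, rfl⟩
    exact (a5 p q (a4 (subset_closure ⟨p, hp, rfl⟩)) (a4 (subset_closure ⟨q, hq, rfl⟩))).1
  choose h hh using ex
  have k1 : ∀ y : G, ∀ U ∈ 𝓝 y.1, h y ∈ closure (f '' (e ⁻¹' U)) := fun y U hU => by
    have := nb y
    exact mem_closure_of_tendsto (hh y)
      (mem_of_superset (preimage_mem_comap hU) fun a ha => ⟨a, ha, rfl⟩)
  have k2 : ∀ y : G, ∀ V ∈ 𝓝 (h y), y.1 ∈ closure (e '' (f ⁻¹' V)) := fun y V hV => by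
    have := nb y
    exact mem_closure_of_tendsto tendsto_comap
      (mem_of_superset (hh y hV) fun a ha => ⟨a, ha, rfl⟩)
  refine ⟨G, isClosed_closure.isGδ.inter (IsGδ.iInter fun n => (o1 _).isGδ), ?_, h,
    IsInducing.isEmbedding (isInducing_iff_nhds.2 fun y => le_antisymm ?_ ?_), fun a ha => ?_⟩
  · rintro _ ⟨a, rfl⟩
    exact ⟨subset_closure ⟨a, rfl⟩, mem_iInter.2 fun n => o2 _ Nat.one_div_pos_of_nat a⟩
  · refine tendsto_iff_comap.1 ((closed_nhds_basis (h y)).tendsto_right_iff.2 fun C ⟨c1, c2⟩ => ?_)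
    obtain ⟨U, u1, u2⟩ := mem_comap.1 (hh y c1)
    filter_upwards [continuous_subtype_val.continuousAt.preimage_mem_nhds (interior_mem_nhds.2 u1)]
      with z hz
    exact closure_minimal (image_subset_iff.2 u2) c2 (k1 z U (mem_interior_iff_mem_nhds.1 hz))
  · refine (Metric.nhds_basis_closedBall.ge_iff).2 fun r hr => ?_
    obtain ⟨U, V, a1, a2, a3, a4, a5⟩ := g y r hr
    have v : h y ∈ V := a4 (k1 y U (a1.mem_nhds a3))
    refine mem_of_superset (preimage_mem_comap (a2.mem_nhds v)) fun z hz => ?_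
    have c : closure ((e '' (f ⁻¹' V)) ×ˢ (e '' (f ⁻¹' V))) ⊆ {p | dist p.1 p.2 ≤ r} := by
      refine closure_minimal ?_ (isClosed_le (by fun_prop) continuous_const)
      rintro ⟨_, _⟩ ⟨⟨p, hp, rfl⟩, q, hq, rfl⟩
      exact (a5 p q hp hq).2
    rw [closure_prod_eq] at c
    exact c (a := (z.1, y.1)) ⟨k2 z V (a2.mem_nhds hz), k2 y V (a2.mem_nhds v)⟩
  · have := nb ⟨e a, ha⟩
    refine tendsto_nhds_unique (hh ⟨e a, ha⟩) ?_
    rw [← he.nhds_eq_comap]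
    exact hf.continuous.continuousAt

/-- the remainder of a suitable `Gδ` extension embeds in the remainder of a Polish extension -/
lemma rem {A Y W : Type} [TopologicalSpace A] [MetricSpace Y] [TopologicalSpace W] [PolishSpace W]
    {e : A → Y} {f : A → W} (he : IsEmbedding e) (hf : IsEmbedding f) {k : ℕ}
    (h : D k (range f)ᶜ) : ∃ G : Set Y, IsGδ G ∧ range e ⊆ G ∧ D k (G \ range e) := by
  let := upgradeIsCompletelyMetrizable W
  obtain ⟨G, g1, g2, u, u1, u2⟩ := lavr he hf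
  refine ⟨G, g1, g2, ((D_image IsInducing.subtypeVal).2 ((D_image u1.isInducing
    (S := Subtype.val ⁻¹' (range e)ᶜ)).1 (h.mono ?_))).mono fun z hz => ⟨⟨z, hz.1⟩, hz.2, rfl⟩⟩
  rintro _ ⟨z, hz, rfl⟩ ⟨a, ha⟩
  exact hz ⟨a, congrArg Subtype.val (u1.injective ((u2 a (g2 ⟨a, rfl⟩)).trans ha))⟩

end Pool.Agent.H.MP_ffad8e
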